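import Mathlib

/-!
# Generation of a Veronese subring in degree one
-/

set_option autoImplicit false
set_option linter.unusedSectionVars false

namespace Pool.Agent.N207.CP

open MvPolynomial

/-- a submonomial of given weight -/
lemma exists_sub {ι : Type} [Fintype ι] (d : ι → ℕ) (q : ℕ) (hd : ∀ i, d i ∣ q)
    (t : ℕ) (α : ι → ℕ) (h : (t + Fintype.card ι) * q ≤ ∑ i, α i * d i) :
    ∃ β : ι → ℕ, β ≤ α ∧ ∑ i, β i * d i = t * q := by
  classical
  induction t with
  | zero => exact ⟨0, fun i => Nat.zero_le _, by simp⟩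
  | succ t ih =>
    obtain ⟨β, hβ, hs⟩ := ih (le_trans (Nat.mul_le_mul_right _ (by omega)) h)
    by_cases hq : q = 0
    · subst hq
      exact ⟨β, hβ, by simpa using hs⟩
    have hsum : ∑ i, (α i - β i) * d i + t * q = ∑ i, α i * d i := by
      rw [← hs, ← Finset.sum_add_distrib]
      refine Finset.sum_congr rfl fun i _ => ?_
      rw [← add_mul, Nat.sub_add_cancel (hβ i)]
    obtain ⟨l, hl⟩ : ∃ l, q ≤ (α l - β l) * d l := by
      by_contra hcon
      push Not at hcon
      have h1 : ∑ i, (α i - β i) * d i ≤ ∑ _i : ι, q :=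
        Finset.sum_le_sum fun i _ => (hcon i).le
      rw [Finset.sum_const, Finset.card_univ, smul_eq_mul] at h1
      have h2 : (t + 1 + Fintype.card ι) * q = Fintype.card ι * q + t * q + q := by ring
      omega
    obtain ⟨e, he⟩ := hd l
    have hdl : 0 < d l := by
      rcases Nat.eq_zero_or_pos (d l) with h0 | h0
      · rw [h0, zero_mul] at he
        exact absurd he hq
      · exact h0
    have hel : e ≤ α l - β l := by
      rw [he, mul_comm (d l) e] at hl
      exact Nat.le_of_mul_le_mul_right hl hdl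
    refine ⟨Function.update β l (β l + e), ?_, ?_⟩
    · intro i
      by_cases hi : i = l
      · subst hi
        rw [Function.update_self]
        have h1 : β i ≤ α i := hβ i
        have h2 : β i + e ≤ α i := by omega
        exact h2
      · rw [Function.update_of_ne hi]
        exact hβ i
    · rw [← Finset.add_sum_erase _ _ (Finset.mem_univ l), Function.update_self]
      rw [← Finset.add_sum_erase _ _ (Finset.mem_univ l)] at hs
      have h3 : ∑ i ∈ Finset.univ.erase l, Function.update β l (β l + e) i * d i =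
          ∑ i ∈ Finset.univ.erase l, β i * d i := by
        refine Finset.sum_congr rfl fun i hi => ?_
        rw [Function.update_of_ne (Finset.ne_of_mem_erase hi)]
      rw [h3, add_mul, add_mul, one_mul, ← hs, he]
      ring

section

variable {K : Type} [Field K] {A : Type} [CommRing A] [Algebra K A] (𝒜 : ℕ → Submodule K A)
  [GradedAlgebra 𝒜] {ι : Type} [Fintype ι] (x : ι → A) (d : ι → ℕ) (hx : ∀ i, x i ∈ 𝒜 (d i))

/-- the monomial -/
def mon (α : ι → ℕ) : A := ∏ i, x i ^ α i

/-- the weight -/
def wt (α : ι → ℕ) : ℕ := ∑ i, α i * d i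

lemma mon_add (α β : ι → ℕ) : mon x (α + β) = mon x α * mon x β := by
  unfold mon
  rw [← Finset.prod_mul_distrib]
  refine Finset.prod_congr rfl fun i _ => ?_
  rw [Pi.add_apply, pow_add]

include hx in
lemma mon_mem (α : ι → ℕ) : mon x α ∈ 𝒜 (wt d α) := by
  unfold mon wt
  refine SetLike.prod_mem_graded 𝒜 (fun i => α i * d i) (fun i => x i ^ α i) fun i _ => ?_
  have := SetLike.pow_mem_graded (α i) (hx i)
  rwa [smul_eq_mul] at this

variable (h0 : ∀ a ∈ 𝒜 0, ∃ c : K, a = algebraMap K A c)
  (hadj : Algebra.adjoin (𝒜 0) (Set.range x) = ⊤)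

include h0 hadj in
lemma adj_top : Algebra.adjoin K (Set.range x) = ⊤ := by
  rw [eq_top_iff]
  intro a _
  have ha : a ∈ Algebra.adjoin (𝒜 0) (Set.range x) := by rw [hadj]; trivial
  induction ha using Algebra.adjoin_induction with
  | mem y hy => exact Algebra.subset_adjoin hy
  | algebraMap r =>
    obtain ⟨c, hc⟩ := h0 r.1 r.2
    have : algebraMap (𝒜 0) A r = algebraMap K A c := hc
    rw [this]
    exact Subalgebra.algebraMap_mem _ c
  | add y z _ _ hy hz => exact add_mem (hy trivial) (hz trivial)
  | mul y z _ _ hy hz => exact mul_mem (hy trivial) (hz trivial)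

include hx h0 hadj in
/-- homogeneous elements are combinations of monomials of the right weight -/
lemma mem_span_mon (N : ℕ) (a : A) (ha : a ∈ 𝒜 N) :
    a ∈ Submodule.span K {m | ∃ α : ι → ℕ, wt d α = N ∧ m = mon x α} := by
  classical
  have h1 : a ∈ Algebra.adjoin K (Set.range x) := by
    rw [adj_top 𝒜 x h0 hadj]; trivial
  rw [Algebra.adjoin_range_eq_range_aeval] at h1
  obtain ⟨p, hp⟩ := h1
  have hp' : aeval x p = a := hp
  have h2 : a = ∑ α ∈ p.support, (p.coeff α) • mon x α := by
    rw [← hp', aeval_def, eval₂_eq']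
    refine Finset.sum_congr rfl fun α _ => ?_
    rw [Algebra.smul_def]
    rfl
  have h3 : a = GradedAlgebra.proj 𝒜 N a := by
    rw [GradedAlgebra.proj_apply, DirectSum.decompose_of_mem_same 𝒜 ha]
  rw [h3, h2, map_sum]
  refine Submodule.sum_mem _ fun α _ => ?_
  rw [map_smul]
  refine Submodule.smul_mem _ _ ?_
  rw [GradedAlgebra.proj_apply]
  by_cases hw : wt d α = N
  · have := mon_mem 𝒜 x d hx α
    rw [hw] at this
    rw [DirectSum.decompose_of_mem_same 𝒜 this]
    exact Submodule.subset_span ⟨α, hw, rfl⟩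
  · rw [DirectSum.decompose_of_mem_ne 𝒜 (mon_mem 𝒜 x d hx α) hw]
    exact zero_mem _

lemma finite_wt (hd : ∀ i, 0 < d i) (D : ℕ) : {α : ι → ℕ | wt d α = D}.Finite := by
  classical
  refine Set.Finite.subset (Set.finite_Iic (fun _ : ι => D)) fun α hα => ?_
  intro i
  have h1 : α i * d i ≤ wt d α := by
    unfold wt
    exact Finset.single_le_sum (f := fun i => α i * d i) (fun _ _ => Nat.zero_le _)
      (Finset.mem_univ i)
  have h2 : wt d α = D := hα
  have h3 := hd i
  calc α i ≤ α i * d i := Nat.le_mul_of_pos_right _ h3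
    _ ≤ D := by rw [← h2]; exact h1

/-- an enumeration of the monomials of weight `D` -/
lemma exists_enum (hd : ∀ i, 0 < d i) (D : ℕ) : ∃ (n : ℕ) (s : Fin (n + 1) → A),
    Set.range s = insert 0 (mon x '' {α : ι → ℕ | wt d α = D}) := by
  classical
  have hfin : (insert (0:A) (mon x '' {α : ι → ℕ | wt d α = D})).Finite :=
    ((finite_wt d hd D).image _).insert 0
  obtain ⟨n, hn⟩ : ∃ n, hfin.toFinset.card = n + 1 := by
    have : 0 < hfin.toFinset.card := by
      rw [Finset.card_pos]
      exact ⟨0, by simp⟩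
    exact ⟨hfin.toFinset.card - 1, by omega⟩
  let e := (Finset.equivFinOfCardEq hn).symm
  refine ⟨n, fun j => (e j).1, ?_⟩
  ext a
  constructor
  · rintro ⟨j, rfl⟩
    have := (e j).2
    rwa [Set.Finite.mem_toFinset] at this
  · intro ha
    refine ⟨e.symm ⟨a, by rwa [Set.Finite.mem_toFinset]⟩, ?_⟩
    simp

end

end Pool.Agent.N207.CP
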