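import Mathlib

/-!
# Morphisms of projective spectra given by ring homomorphisms multiplying the degree
-/

set_option autoImplicit false
set_option linter.unusedSectionVars false

namespace Pool.Agent.N207.CP

open AlgebraicGeometry CategoryTheory Limits HomogeneousLocalization TopologicalSpace

section

variable {A B : Type} [CommRing A] [CommRing B] {τ υ : Type}
    [SetLike τ A] [SetLike υ B] [AddSubgroupClass τ A] [AddSubgroupClass υ B]
    {𝒜 : ℕ → τ} {ℬ : ℕ → υ} [GradedRing 𝒜] [GradedRing ℬ] (f : B →+* A) {D : ℕ}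
    (hf : ∀ (m : ℕ) (b : B), b ∈ ℬ m → f b ∈ 𝒜 (D * m))

section loc

variable {P : Submonoid B} {Q : Submonoid A} (h : P ≤ Q.comap f)

set_option backward.isDefEq.respectTransparency.types false in
/-- the map of homogeneous localizations -/
def lfun : HomogeneousLocalization ℬ P → HomogeneousLocalization 𝒜 Q :=
  Quotient.map'
    (fun x ↦ ⟨D * x.1, ⟨_, hf _ _ x.2.2⟩, ⟨_, hf _ _ x.3.2⟩, h x.4⟩)
    fun x y (e : x.embedding = y.embedding) ↦ by
      apply_fun IsLocalization.map (Localization Q) f h at e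
      simp_rw [HomogeneousLocalization.NumDenSameDeg.embedding, Localization.mk_eq_mk',
        IsLocalization.map_mk', ← Localization.mk_eq_mk'] at e
      exact e

lemma lfun_mk (x : NumDenSameDeg ℬ P) : lfun f hf h (.mk x) =
    .mk ⟨D * x.1, ⟨_, hf _ _ x.2.2⟩, ⟨_, hf _ _ x.3.2⟩, h x.4⟩ := rfl

lemma val_lfun (x : HomogeneousLocalization ℬ P) :
    (lfun f hf h x).val = IsLocalization.map (Localization Q) f h x.val := by
  obtain ⟨c, rfl⟩ := HomogeneousLocalization.mk_surjective x
  rw [lfun_mk, val_mk, val_mk, Localization.mk_eq_mk', Localization.mk_eq_mk',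
    IsLocalization.map_mk']

/-- the homomorphism of homogeneous localizations -/
def lf : HomogeneousLocalization ℬ P →+* HomogeneousLocalization 𝒜 Q where
  toFun := lfun f hf h
  map_one' := by
    apply val_injective
    rw [val_lfun, val_one, val_one, map_one]
  map_mul' x y := by
    apply val_injective
    rw [val_lfun, val_mul, val_mul, map_mul, val_lfun, val_lfun]
  map_zero' := by
    apply val_injective
    rw [val_lfun, val_zero, val_zero, map_zero]
  map_add' x y := by
    apply val_injective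
    rw [val_lfun, val_add, val_add, map_add, val_lfun, val_lfun]

lemma val_lf (x : HomogeneousLocalization ℬ P) :
    (lf f hf h x).val = IsLocalization.map (Localization Q) f h x.val := val_lfun f hf h x

lemma lf_mk (x : NumDenSameDeg ℬ P) : lf f hf h (.mk x) =
    .mk ⟨D * x.1, ⟨_, hf _ _ x.2.2⟩, ⟨_, hf _ _ x.3.2⟩, h x.4⟩ := rfl

end loc

lemma pow_le {s : B} {t : A} (ht : f s = t) : Submonoid.powers s ≤ (Submonoid.powers t).comap f := by
  rw [Submonoid.powers_le]
  exact ⟨1, by simp [ht]⟩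

/-- away from one element -/
def af {s : B} {t : A} (ht : f s = t) : Away ℬ s →+* Away 𝒜 t := lf f hf (pow_le f ht)

lemma val_af {s : B} {t : A} (ht : f s = t) (x : Away ℬ s) : (af f hf ht x).val =
    IsLocalization.map (Localization (Submonoid.powers t)) f (pow_le f ht) x.val :=
  val_lf f hf _ x

lemma af_comp {s s' : B} {t t' : A} (ht : f s = t) (ht' : f s' = t') {e : ℕ} (hs' : s' ∈ ℬ e)
    {u : B} (hu : u = s * s') {v : A} (hv : v = t * t') (huv : f u = v) :
    (awayMap 𝒜 (show t' ∈ 𝒜 (D * e) from ht' ▸ hf _ _ hs') hv).comp (af f hf ht) =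
      (af f hf huv).comp (awayMap ℬ hs' hu) := by
  ext x
  obtain ⟨⟨n, ⟨a, ha⟩, ⟨b, hb'⟩, j, rfl : _ = b⟩, rfl⟩ := HomogeneousLocalization.mk_surjective x
  rw [RingHom.comp_apply, RingHom.comp_apply, val_af, val_awayMap_mk, val_awayMap]
  rw [val_af, val_mk]
  simp only [Localization.awayLift, IsLocalization.Away.lift]
  rw [Localization.mk_eq_mk', Localization.mk_eq_mk', IsLocalization.map_mk',
    IsLocalization.map_mk', IsLocalization.lift_mk'_spec]
  simp only [map_pow, map_mul]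
  rw [← Localization.mk_eq_mk', ← Localization.mk_one_eq_algebraMap,
    ← Localization.mk_one_eq_algebraMap, Localization.mk_pow, Localization.mk_mul,
    Localization.mk_eq_mk_iff, Localization.r_iff_exists]
  refine ⟨1, ?_⟩
  simp only [OneMemClass.coe_one, one_mul, Submonoid.coe_mul, SubmonoidClass.coe_pow, one_pow,
    mul_one, ht, ht', huv, hv, mul_pow]
  ring

section glue

variable {ι : Type} (s : ι → B) (t : ι → A) (hs : ∀ i, s i ∈ ℬ 1) (ht : ∀ i, f (s i) = t i)
  (hD : 0 < D) (hcov : ⨆ i, Proj.basicOpen 𝒜 (t i) = ⊤)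

include hf hs ht in
lemma tmem (i : ι) : t i ∈ 𝒜 (D * 1) := ht i ▸ hf 1 _ (hs i)

include hD in
lemma Dpos : 0 < D * 1 := by omega

/-- the affine cover -/
noncomputable def cov : (Proj 𝒜).AffineOpenCover where
  I₀ := ι
  X i := .of (Away 𝒜 (t i))
  f i := Proj.awayι 𝒜 (t i) (tmem f hf s t hs ht i) (Dpos hD)
  idx x := (Opens.mem_iSup.mp (hcov.ge (Set.mem_univ x))).choose
  covers x := by
    change x ∈ (Proj.awayι 𝒜 _ _ _).opensRange
    rw [Proj.opensRange_awayι]
    exact (Opens.mem_iSup.mp (hcov.ge (Set.mem_univ x))).choose_spec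

/-- the morphism on a chart -/
noncomputable def gch (i : ι) : Spec (.of (Away 𝒜 (t i))) ⟶ Proj ℬ :=
  Spec.map (CommRingCat.ofHom (af f hf (ht i))) ≫ Proj.awayι ℬ (s i) (hs i) one_pos

lemma gch_eq (i j : ι) : Spec.map (CommRingCat.ofHom (awayMap 𝒜 (tmem f hf s t hs ht j)
      (rfl : t i * t j = t i * t j))) ≫ gch f hf s t hs ht i =
    Spec.map (CommRingCat.ofHom (af f hf (show f (s i * s j) = t i * t j by
      rw [map_mul, ht i, ht j]))) ≫
      Proj.awayι ℬ (s i * s j) (SetLike.mul_mem_graded (hs i) (hs j)) (by omega) := by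
  unfold gch
  rw [← Spec.map_comp_assoc, ← CommRingCat.ofHom_comp]
  have h := af_comp f hf (ht i) (ht j) (hs j) (rfl : s i * s j = s i * s j)
    (rfl : t i * t j = t i * t j) (show f (s i * s j) = t i * t j by rw [map_mul, ht i, ht j])
  rw [h, CommRingCat.ofHom_comp, Spec.map_comp, Category.assoc,
    Proj.SpecMap_awayMap_awayι ℬ (hs i) one_pos (hs j)]

lemma gch_eq' (i j : ι) : Spec.map (CommRingCat.ofHom (awayMap 𝒜 (tmem f hf s t hs ht i)
      (mul_comm (t i) (t j)))) ≫ gch f hf s t hs ht j =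
    Spec.map (CommRingCat.ofHom (af f hf (show f (s i * s j) = t i * t j by
      rw [map_mul, ht i, ht j]))) ≫
      Proj.awayι ℬ (s i * s j) (SetLike.mul_mem_graded (hs i) (hs j)) (by omega) := by
  unfold gch
  rw [← Spec.map_comp_assoc, ← CommRingCat.ofHom_comp]
  have h := af_comp f hf (ht j) (ht i) (hs i) (mul_comm (s i) (s j))
    (mul_comm (t i) (t j)) (show f (s i * s j) = t i * t j by rw [map_mul, ht i, ht j])
  rw [h, CommRingCat.ofHom_comp, Spec.map_comp, Category.assoc,
    Proj.SpecMap_awayMap_awayι ℬ (hs j) one_pos (hs i) (mul_comm (s i) (s j))]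

lemma compat (i j : ι) : pullback.fst (Proj.awayι 𝒜 (t i) (tmem f hf s t hs ht i) (Dpos hD))
      (Proj.awayι 𝒜 (t j) (tmem f hf s t hs ht j) (Dpos hD)) ≫ gch f hf s t hs ht i =
      pullback.snd (Proj.awayι 𝒜 (t i) (tmem f hf s t hs ht i) (Dpos hD))
      (Proj.awayι 𝒜 (t j) (tmem f hf s t hs ht j) (Dpos hD)) ≫ gch f hf s t hs ht j := by
  have h1 := Proj.pullbackAwayιIso_hom_SpecMap_awayMap_left 𝒜 (tmem f hf s t hs ht i) (Dpos hD)
    (tmem f hf s t hs ht j) (Dpos hD) rfl
  have h2 := Proj.pullbackAwayιIso_hom_SpecMap_awayMap_right 𝒜 (tmem f hf s t hs ht i) (Dpos hD)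
    (tmem f hf s t hs ht j) (Dpos hD) rfl
  rw [← h1, ← h2, Category.assoc, Category.assoc]
  congr 1
  exact (gch_eq f hf s t hs ht i j).trans (gch_eq' f hf s t hs ht i j).symm

/-- the morphism -/
noncomputable def pmap : Proj 𝒜 ⟶ Proj ℬ :=
  (cov f hf s t hs ht hD hcov).openCover.glueMorphisms (fun i => gch f hf s t hs ht i)
    (fun i j => compat f hf s t hs ht hD i j)

lemma ι_pmap (i : ι) : Proj.awayι 𝒜 (t i) (tmem f hf s t hs ht i) (Dpos hD) ≫
    pmap f hf s t hs ht hD hcov =
      Spec.map (CommRingCat.ofHom (af f hf (ht i))) ≫ Proj.awayι ℬ (s i) (hs i) one_pos :=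
  (cov f hf s t hs ht hD hcov).openCover.ι_glueMorphisms _ _ i

lemma af_elem (i j : ι) :
    (af f hf (ht j) (Away.isLocalizationElem (hs j) (hs i))) ^ (D * 1) =
      Away.isLocalizationElem (tmem f hf s t hs ht j) (tmem f hf s t hs ht i) := by
  apply val_injective
  rw [val_pow, val_af, Away.val_mk, Away.val_mk, Localization.mk_eq_mk',
    IsLocalization.map_mk', ← Localization.mk_eq_mk', Localization.mk_pow,
    Localization.mk_eq_mk_iff, Localization.r_iff_exists]
  refine ⟨1, ?_⟩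
  simp only [OneMemClass.coe_one, one_mul, SubmonoidClass.coe_pow, map_pow, ht, pow_one, mul_one]

lemma preim (i : ι) : pmap f hf s t hs ht hD hcov ⁻¹ᵁ Proj.basicOpen ℬ (s i) =
    Proj.basicOpen 𝒜 (t i) := by
  ext x
  obtain ⟨j, hj⟩ : ∃ j, x ∈ Proj.basicOpen 𝒜 (t j) :=
    Opens.mem_iSup.mp (hcov.ge (Set.mem_univ x))
  rw [← Proj.opensRange_awayι 𝒜 (t j) (tmem f hf s t hs ht j) (Dpos hD)] at hj
  obtain ⟨z, rfl⟩ := hj
  have h1 : (Proj.awayι 𝒜 (t j) (tmem f hf s t hs ht j) (Dpos hD) ≫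
      pmap f hf s t hs ht hD hcov) ⁻¹ᵁ Proj.basicOpen ℬ (s i) =
      PrimeSpectrum.basicOpen (af f hf (ht j) (Away.isLocalizationElem (hs j) (hs i))) := by
    rw [ι_pmap, Scheme.Hom.comp_preimage, Proj.awayι_preimage_basicOpen ℬ (hs j) one_pos (hs i)
      one_pos]
    rfl
  have h2 : Proj.awayι 𝒜 (t j) (tmem f hf s t hs ht j) (Dpos hD) ⁻¹ᵁ Proj.basicOpen 𝒜 (t i) =
      PrimeSpectrum.basicOpen (af f hf (ht j) (Away.isLocalizationElem (hs j) (hs i))) := by
    rw [Proj.awayι_preimage_basicOpen 𝒜 (tmem f hf s t hs ht j) (Dpos hD)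
      (tmem f hf s t hs ht i) (Dpos hD), ← af_elem f hf s t hs ht i j,
      PrimeSpectrum.basicOpen_pow _ _ (Dpos hD)]
  rw [Scheme.Hom.comp_preimage] at h1
  have h3 := h1.trans h2.symm
  exact Iff.of_eq (congrArg (fun U : (Spec (.of (Away 𝒜 (t j)))).Opens => z ∈ U) h3)

lemma isPullback_pmap (i : ι) : IsPullback (Spec.map (CommRingCat.ofHom (af f hf (ht i))))
    (Proj.awayι 𝒜 (t i) (tmem f hf s t hs ht i) (Dpos hD)) (Proj.awayι ℬ (s i) (hs i) one_pos)
    (pmap f hf s t hs ht hD hcov) := by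
  apply IsOpenImmersion.isPullback
  · exact ι_pmap f hf s t hs ht hD hcov i
  · rw [Proj.opensRange_awayι, Proj.opensRange_awayι]
    exact preim f hf s t hs ht hD hcov i

lemma closed_chart (i : ι) (hsur : Function.Surjective (af (𝒜 := 𝒜) (ℬ := ℬ) f hf (ht i))) :
    IsClosedImmersion (pullback.snd (pmap f hf s t hs ht hD hcov)
      (Proj.awayι ℬ (s i) (hs i) one_pos)) := by
  have h := isPullback_pmap f hf s t hs ht hD hcov i
  have h1 : pullback.snd (pmap f hf s t hs ht hD hcov) (Proj.awayι ℬ (s i) (hs i) one_pos) =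
      h.flip.isoPullback.inv ≫ Spec.map (CommRingCat.ofHom (af f hf (ht i))) :=
    (h.flip.isoPullback_inv_snd).symm
  rw [h1, MorphismProperty.cancel_left_of_respectsIso @IsClosedImmersion]
  exact IsClosedImmersion.spec_of_surjective _ hsur

/-- the affine cover of the target -/
noncomputable def covB (hcovB : ⨆ i, Proj.basicOpen ℬ (s i) = ⊤) : (Proj ℬ).AffineOpenCover where
  I₀ := ι
  X i := .of (Away ℬ (s i))
  f i := Proj.awayι ℬ (s i) (hs i) one_pos
  idx x := (Opens.mem_iSup.mp (hcovB.ge (Set.mem_univ x))).choose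
  covers x := by
    change x ∈ (Proj.awayι ℬ _ _ _).opensRange
    rw [Proj.opensRange_awayι]
    exact (Opens.mem_iSup.mp (hcovB.ge (Set.mem_univ x))).choose_spec

lemma closed_pmap (hcovB : ⨆ i, Proj.basicOpen ℬ (s i) = ⊤)
    (hsur : ∀ i, Function.Surjective (af (𝒜 := 𝒜) (ℬ := ℬ) f hf (ht i))) :
    IsClosedImmersion (pmap f hf s t hs ht hD hcov) := by
  apply IsZariskiLocalAtTarget.of_openCover (covB s hs hcovB).openCover
  intro i
  exact closed_chart f hf s t hs ht hD hcov i (hsur i)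

end glue

end

end Pool.Agent.N207.CP
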