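import Pool.Agent.N207.CP.Deg
import Pool.Agent.N207.CP.Alg

/-!
# The projective spectrum of a finitely generated graded algebra is projective
-/

set_option autoImplicit false
set_option linter.unusedSectionVars false

namespace Pool.Agent.N207.CP

open AlgebraicGeometry CategoryTheory Limits HomogeneousLocalization TopologicalSpace MvPolynomial

attribute [local instance] MvPolynomial.gradedAlgebra

section

variable {K : Type} [Field K] {A : Type} [CommRing A] [Algebra K A] (𝒜 : ℕ → Submodule K A)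
  [GradedAlgebra 𝒜] {n D : ℕ} (s : Fin (n + 1) → A) (hs : ∀ j, s j ∈ 𝒜 D)

/-- the homomorphism from the polynomial ring -/
noncomputable def fs : MvPolynomial (Fin (n + 1)) K →+* A := (aeval s).toRingHom

lemma fs_apply (b : MvPolynomial (Fin (n + 1)) K) : fs s b = aeval s b := rfl

lemma fs_X (j : Fin (n + 1)) : fs (K := K) s (X j) = s j := by
  rw [fs_apply, aeval_X]

include hs in
lemma fs_mem (m : ℕ) (b : MvPolynomial (Fin (n + 1)) K)
    (hb : b ∈ homogeneousSubmodule (Fin (n + 1)) K m) : fs s b ∈ 𝒜 (D * m) := by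
  have h2 : fs s b = ∑ α ∈ b.support, (b.coeff α) • ∏ j, s j ^ α j := by
    rw [fs_apply, aeval_def, eval₂_eq']
    refine Finset.sum_congr rfl fun α _ => ?_
    rw [Algebra.smul_def]
  rw [h2]
  refine Submodule.sum_mem _ fun α hα => Submodule.smul_mem _ _ ?_
  have h3 : ∑ j, α j = m := by
    have h4 : b.IsHomogeneous m := hb
    have h5 := h4 (mem_support_iff.1 hα)
    rw [← h5]
    simp [Finsupp.weight_apply, Finsupp.sum_fintype]
  have h6 := SetLike.prod_mem_graded 𝒜 (fun j => α j * D) (fun j => s j ^ α j)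
    (F := Finset.univ) fun j _ => by
      have := SetLike.pow_mem_graded (α j) (hs j)
      rwa [smul_eq_mul] at this
  rw [← Finset.sum_mul, h3, mul_comm] at h6
  exact h6

/-- the image of the forms of degree `k` -/
noncomputable def Gk (k : ℕ) : Submodule K A :=
  (homogeneousSubmodule (Fin (n + 1)) K k).map (aeval s).toLinearMap

lemma mem_Gk {k : ℕ} {a : A} : a ∈ Gk (K := K) s k ↔
    ∃ b ∈ homogeneousSubmodule (Fin (n + 1)) K k, fs s b = a := by
  rw [Gk, Submodule.mem_map]
  rfl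

lemma one_mem_Gk : (1 : A) ∈ Gk (K := K) s 0 :=
  (mem_Gk s).2 ⟨1, isHomogeneous_one _ _, map_one _⟩

lemma mul_mem_Gk {k l : ℕ} {a b : A} (ha : a ∈ Gk (K := K) s k) (hb : b ∈ Gk (K := K) s l) :
    a * b ∈ Gk (K := K) s (k + l) := by
  obtain ⟨p, hp, rfl⟩ := (mem_Gk s).1 ha
  obtain ⟨q, hq, rfl⟩ := (mem_Gk s).1 hb
  exact (mem_Gk s).2 ⟨p * q, IsHomogeneous.mul hp hq, map_mul _ _ _⟩

variable {ι : Type} [Fintype ι] (x : ι → A) (d : ι → ℕ) (hx : ∀ i, x i ∈ 𝒜 (d i))
  (hd : ∀ i, 0 < d i) (q : ℕ) (hq : 0 < q) (hdq : ∀ i, d i ∣ q)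
  (hr : Set.range s = insert 0 (mon x '' {α : ι → ℕ | wt d α = (Fintype.card ι + 1) * q}))

include hd hdq hr in
lemma mon_mem_Gk (k : ℕ) (α : ι → ℕ) (hw : wt d α = (Fintype.card ι + 1) * q * k) :
    mon x α ∈ Gk (K := K) s k := by
  have hone : ∀ β : ι → ℕ, wt d β = (Fintype.card ι + 1) * q → mon x β ∈ Gk (K := K) s 1 := by
    intro β hβ
    have h1 : mon x β ∈ Set.range s := by
      rw [hr]
      exact Or.inr ⟨β, hβ, rfl⟩
    obtain ⟨j, hj⟩ := h1
    exact (mem_Gk s).2 ⟨X j, isHomogeneous_X _ _, by rw [fs_X, hj]⟩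
  induction k generalizing α with
  | zero =>
    have h1 : α = 0 := by
      funext i
      rw [mul_zero] at hw
      unfold wt at hw
      have h2 := (Finset.sum_eq_zero_iff.1 hw) i (Finset.mem_univ i)
      have h3 := hd i
      exact (Nat.mul_eq_zero.1 h2).resolve_right (by omega)
    rw [h1]
    have : mon x (0 : ι → ℕ) = 1 := by
      unfold mon
      simp
    rw [this]
    exact one_mem_Gk s
  | succ k ih =>
    rcases Nat.eq_zero_or_pos k with hk | hk
    · subst hk
      exact hone α (by rw [hw]; ring)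
    · obtain ⟨β, hβ, hβs⟩ := exists_sub d q hdq (Fintype.card ι + 1) α (by
        have : ∑ i, α i * d i = (Fintype.card ι + 1) * q * (k + 1) := hw
        rw [this]
        have h2 : (Fintype.card ι + 1) * q * 2 ≤ (Fintype.card ι + 1) * q * (k + 1) :=
          Nat.mul_le_mul_left _ (by omega)
        refine le_trans ?_ h2
        nlinarith)
      have h1 : α = β + (α - β) := by
        funext i
        have h7 : β i ≤ α i := hβ i
        simp only [Pi.add_apply, Pi.sub_apply]
        omega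
      have h2 : wt d (α - β) = (Fintype.card ι + 1) * q * k := by
        have h3 : wt d α = wt d β + wt d (α - β) := by
          conv_lhs => rw [h1]
          unfold wt
          rw [← Finset.sum_add_distrib]
          refine Finset.sum_congr rfl fun i _ => ?_
          rw [Pi.add_apply, add_mul]
        have h4 : wt d β = (Fintype.card ι + 1) * q := hβs
        rw [hw, h4] at h3
        have h5 : (Fintype.card ι + 1) * q * (k + 1) =
          (Fintype.card ι + 1) * q + (Fintype.card ι + 1) * q * k := by ring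
        omega
      rw [h1, mon_add, add_comm k 1]
      exact mul_mem_Gk s (hone β hβs) (ih (α - β) h2)

variable (h0 : ∀ a ∈ 𝒜 0, ∃ c : K, a = algebraMap K A c)
  (hadj : Algebra.adjoin (𝒜 0) (Set.range x) = ⊤)

include hd hdq hr hx h0 hadj in
lemma mem_Gk_of_mem (k : ℕ) (a : A) (ha : a ∈ 𝒜 ((Fintype.card ι + 1) * q * k)) :
    a ∈ Gk (K := K) s k := by
  have h1 := mem_span_mon 𝒜 x d hx h0 hadj _ a ha
  refine (Submodule.span_le.2 ?_) h1
  rintro _ ⟨α, hα, rfl⟩
  exact mon_mem_Gk s x d hd q hdq hr k α hα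

include hx hr in
lemma s_mem (j : Fin (n + 1)) : s j ∈ 𝒜 ((Fintype.card ι + 1) * q) := by
  have h1 : s j ∈ Set.range s := ⟨j, rfl⟩
  rw [hr] at h1
  rcases h1 with h1 | ⟨α, hα, h1⟩
  · rw [h1]; exact zero_mem _
  · rw [← h1]
    have := mon_mem 𝒜 x d hx α
    have h2 : wt d α = (Fintype.card ι + 1) * q := hα
    rwa [h2] at this

include hx hd hq hdq hr hadj in
lemma cov_s : ⨆ j, Proj.basicOpen 𝒜 (s j) = ⊤ := by
  classical
  rw [eq_top_iff, ← Proj.iSup_basicOpen_eq_top' 𝒜 x (fun i => ⟨d i, hx i⟩) hadj]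
  refine iSup_le fun i => ?_
  obtain ⟨e, he⟩ := hdq i
  have he0 : 0 < e := by
    rcases Nat.eq_zero_or_pos e with h | h
    · rw [h, mul_zero] at he; omega
    · exact h
  have h1 : x i ^ ((Fintype.card ι + 1) * e) ∈ Set.range s := by
    rw [hr]
    refine Or.inr ⟨Pi.single i ((Fintype.card ι + 1) * e), ?_, ?_⟩
    · show wt d (Pi.single i ((Fintype.card ι + 1) * e)) = (Fintype.card ι + 1) * q
      unfold wt
      rw [Finset.sum_eq_single i (fun j _ hj => by rw [Pi.single_eq_of_ne hj, zero_mul])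
        (fun h => absurd (Finset.mem_univ i) h), Pi.single_eq_same, he]
      ring
    · unfold mon
      rw [Finset.prod_eq_single i (fun j _ hj => by rw [Pi.single_eq_of_ne hj, pow_zero])
        (fun h => absurd (Finset.mem_univ i) h), Pi.single_eq_same]
  obtain ⟨j, hj⟩ := h1
  rw [← Proj.basicOpen_pow 𝒜 (x i) ((Fintype.card ι + 1) * e) (by positivity), ← hj]
  exact le_iSup (fun j => Proj.basicOpen 𝒜 (s j)) j

lemma cov_X : ⨆ j, Proj.basicOpen (homogeneousSubmodule (Fin (n + 1)) K) (X j) = ⊤ := by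
  refine Proj.iSup_basicOpen_eq_top' _ _ (fun j => ⟨1, isHomogeneous_X _ _⟩) ?_
  rw [eq_top_iff]
  intro p _
  induction p using MvPolynomial.induction_on with
  | C a =>
    have : (C a : MvPolynomial (Fin (n + 1)) K) ∈ homogeneousSubmodule (Fin (n + 1)) K 0 :=
      isHomogeneous_C _ _
    exact Subalgebra.algebraMap_mem
      (Algebra.adjoin (homogeneousSubmodule (Fin (n + 1)) K 0) (Set.range X)) ⟨C a, this⟩
  | add p q hp hq => exact add_mem (hp trivial) (hq trivial)
  | mul_X p j hp => exact mul_mem (hp trivial) (Algebra.subset_adjoin ⟨j, rfl⟩)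

include hd hdq hr hx h0 hadj in
lemma af_surj (j : Fin (n + 1)) : Function.Surjective (af (𝒜 := 𝒜)
    (ℬ := homogeneousSubmodule (Fin (n + 1)) K) (fs s)
    (fun m b hb => fs_mem 𝒜 s (s_mem 𝒜 s x d hx q hr) m b hb) (fs_X s j)) := by
  intro z
  obtain ⟨k, a, ha, rfl⟩ := Away.mk_surjective 𝒜 (s_mem 𝒜 s x d hx q hr j) z
  have ha' : a ∈ 𝒜 ((Fintype.card ι + 1) * q * k) := by
    rw [mul_comm]
    simpa using ha
  obtain ⟨b, hb, rfl⟩ := (mem_Gk s).1 (mem_Gk_of_mem 𝒜 s x d hx hd q hdq hr h0 hadj k a ha')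
  have hX : (X j : MvPolynomial (Fin (n + 1)) K) ∈ homogeneousSubmodule (Fin (n + 1)) K 1 :=
    isHomogeneous_X K j
  have hb' : b ∈ homogeneousSubmodule (Fin (n + 1)) K (k • 1) := by
    rw [smul_eq_mul, mul_one]
    exact hb
  refine ⟨Away.mk _ hX k b hb', ?_⟩
  apply val_injective
  rw [val_af, Away.val_mk, Away.val_mk, Localization.mk_eq_mk', Localization.mk_eq_mk',
    IsLocalization.map_mk']
  congr 1
  apply Subtype.ext
  simp [fs_X]

include hd hq hdq hr hx h0 hadj in
theorem emb_aux : ∃ i : Proj 𝒜 ⟶ Proj (homogeneousSubmodule (Fin (n + 1)) K),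
    IsClosedImmersion i ∧ i ≫ Proj.toSpecZero (homogeneousSubmodule (Fin (n + 1)) K) ≫
      Spec.map (CommRingCat.ofHom (algebraMap K (homogeneousSubmodule (Fin (n + 1)) K 0))) =
      Proj.toSpecZero 𝒜 ≫ Spec.map (CommRingCat.ofHom (algebraMap K (𝒜 0))) := by
  have hf : ∀ (m : ℕ) (b : MvPolynomial (Fin (n + 1)) K),
      b ∈ homogeneousSubmodule (Fin (n + 1)) K m → fs s b ∈ 𝒜 ((Fintype.card ι + 1) * q * m) :=
    fun m b hb => fs_mem 𝒜 s (s_mem 𝒜 s x d hx q hr) m b hb
  have hX : ∀ j : Fin (n + 1), (X j : MvPolynomial (Fin (n + 1)) K) ∈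
      homogeneousSubmodule (Fin (n + 1)) K 1 := fun j => isHomogeneous_X K j
  have hD : 0 < (Fintype.card ι + 1) * q := by positivity
  have hcov := cov_s 𝒜 s x d hx hd q hq hdq hr hadj
  refine ⟨pmap (fs s) hf X s hX (fs_X s) hD hcov,
    closed_pmap (fs s) hf X s hX (fs_X s) hD hcov cov_X
      (fun j => af_surj 𝒜 s x d hx hd q hdq hr h0 hadj j), ?_⟩
  apply (cov (fs s) hf X s hX (fs_X s) hD hcov).openCover.hom_ext
  intro (j : Fin (n + 1))
  change Proj.awayι 𝒜 (s j) (tmem (fs s) hf X s hX (fs_X s) j) (Dpos hD) ≫ _ =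
    Proj.awayι 𝒜 (s j) (tmem (fs s) hf X s hX (fs_X s) j) (Dpos hD) ≫ _
  rw [← Category.assoc, ι_pmap, Category.assoc,
    ← Category.assoc (Proj.awayι _ _ _ _) (Proj.toSpecZero _), Proj.awayι_toSpecZero,
    ← Category.assoc (Proj.awayι _ _ _ _) (Proj.toSpecZero _), Proj.awayι_toSpecZero,
    ← Spec.map_comp, ← Spec.map_comp, ← Spec.map_comp]
  congr 1
  ext c
  change ((af (fs s) hf (fs_X s j)) (fromZeroRingHom _ _ (algebraMap K _ c))).val =
    (fromZeroRingHom 𝒜 _ (algebraMap K _ c)).val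
  rw [val_af]
  change IsLocalization.map _ (fs s) _ (Localization.mk (algebraMap K _ c) 1) =
    Localization.mk (algebraMap K A c) 1
  rw [Localization.mk_eq_mk', Localization.mk_eq_mk', IsLocalization.map_mk']
  congr 1
  · exact aeval_C s c
  · apply Subtype.ext
    simp

end

end Pool.Agent.N207.CP
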