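import Pool.Agent.N207.CP.Emb
import Pool.Agent.N212.Stm

/-!
# The projective spectrum of a finitely generated graded algebra is projective
-/

set_option autoImplicit false

namespace Pool.Agent.N207.CP

open AlgebraicGeometry CategoryTheory Limits HomogeneousLocalization TopologicalSpace MvPolynomial

attribute [local instance] MvPolynomial.gradedAlgebra

theorem emb (K : Type) [Field K] (A : Type) [CommRing A] [Algebra K A] (𝒜 : ℕ → Submodule K A)
    [GradedAlgebra 𝒜] [Algebra.FiniteType K A] (h0 : ∀ a ∈ 𝒜 0, ∃ c : K, a = algebraMap K A c) :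
    ∃ (n : ℕ) (i : Proj 𝒜 ⟶ Proj (homogeneousSubmodule (Fin (n + 1)) K)), IsClosedImmersion i ∧
      i ≫ Proj.toSpecZero (homogeneousSubmodule (Fin (n + 1)) K) ≫
        Spec.map (CommRingCat.ofHom (algebraMap K (homogeneousSubmodule (Fin (n + 1)) K 0))) =
      Proj.toSpecZero 𝒜 ≫ Spec.map (CommRingCat.ofHom (algebraMap K (𝒜 0))) := by
  classical
  have : IsScalarTower K (𝒜 0) A := ⟨fun c a b => by
    change (c • (a : A)) * b = c • ((a : A) * b)
    exact smul_mul_assoc c (a : A) b⟩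
  have : Algebra.FiniteType (𝒜 0) A := Algebra.FiniteType.of_restrictScalars_finiteType K (𝒜 0) A
  obtain ⟨x, hx, hx'⟩ := GradedAlgebra.exists_finset_adjoin_eq_top_and_homogeneous_ne_zero 𝒜
  choose d hd hxd using hx'
  have hadj : Algebra.adjoin (𝒜 0) (Set.range (fun i : x => (i : A))) = ⊤ := by
    simpa using hx
  obtain ⟨n, s, hr⟩ := exists_enum (fun i : x => (i : A)) (fun i : x => d i.1 i.2)
    (fun i => Nat.pos_of_ne_zero (hd i.1 i.2))
    ((Fintype.card x + 1) * ∏ i : x, d i.1 i.2)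
  obtain ⟨i, hi, hi'⟩ := emb_aux 𝒜 s (fun i : x => (i : A)) (fun i : x => d i.1 i.2)
    (fun i => hxd i.1 i.2) (fun i => Nat.pos_of_ne_zero (hd i.1 i.2)) (∏ i : x, d i.1 i.2)
    (Finset.prod_pos fun i _ => Nat.pos_of_ne_zero (hd i.1 i.2))
    (fun i => Finset.dvd_prod_of_mem (fun i : x => d i.1 i.2) (Finset.mem_univ i)) hr h0 hadj
  exact ⟨n, i, hi, hi'⟩

open Pool.Agent.N212 Pool.Agent.W506 in
theorem stmProj : StmProj := by
  intro K _ A _ _ 𝒜 _ _ h0
  obtain ⟨n, i, hi, hi'⟩ := emb K A 𝒜 h0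
  refine ⟨n, i, hi, ?_⟩
  rw [toK_eq]
  exact hi'

end Pool.Agent.N207.CP
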